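import Pool.Agent.helper9.HX.Spec

/-!
# Row hx BASE (MP_d9e35a_co): the parity identity
-/

set_option autoImplicit false
set_option linter.unusedVariables false

open scoped Classical

namespace Pool.Agent.helper9.HX

open Finset
open Pool.Agent.helper65.HC (V IsEig IsTop lam)
open Pool.Agent.helper9.HQ (Fam Dn E N Le hi c)
open Pool.Agent.helper9

/-- the change of the coordinate `i` -/
noncomputable def BASE_fl {d : ℕ} (i : Fin d) (x : Finset (Fin d)) : Finset (Fin d) :=
  if i ∈ x then x.erase i else insert i x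

theorem BASE_fl_fl {d : ℕ} (i : Fin d) (x : Finset (Fin d)) : BASE_fl i (BASE_fl i x) = x := by
  unfold BASE_fl
  by_cases h : i ∈ x
  · simp [h]
  · simp [h]

theorem BASE_fl_par {d : ℕ} (i : Fin d) (x : Finset (Fin d)) :
    (BASE_fl i x).card % 2 = 0 ↔ x.card % 2 = 1 := by
  unfold BASE_fl
  by_cases h : i ∈ x
  · have h1 : x.card = (x.erase i).card + 1 := (card_erase_add_one h).symm
    simp only [h, if_true]
    omega
  · have h1 : (insert i x).card = x.card + 1 := card_insert_of_notMem h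
    simp only [h, if_false]
    omega

theorem BASE_sum {d : ℕ} (f : Finset (Fin d) → ℝ) (x : Finset (Fin d)) :
    ∑ i ∈ x, f (x.erase i) + ∑ i ∈ xᶜ, f (insert i x) = ∑ i, f (BASE_fl i x) := by
  rw [← sum_add_sum_compl x]
  congr 1
  · refine sum_congr rfl fun i hi => ?_
    unfold BASE_fl
    rw [if_pos hi]
  · refine sum_congr rfl fun i hi => ?_
    unfold BASE_fl
    rw [if_neg (mem_compl.1 hi)]

theorem BASE_sq {d : ℕ} {U : Fam d} {l : ℝ} {f : Finset (Fin d) → ℝ} (H : Pf U l f)
    (x : Finset (Fin d)) : l * f x ^ 2 = ∑ i, f x * f (BASE_fl i x) := by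
  rw [← mul_sum, ← BASE_sum]
  by_cases h : x ∈ U
  · rw [← H.eq x h]
    ring
  · rw [H.out x h]
    ring

theorem BASE_par {d : ℕ} {U : Fam d} {l : ℝ} {f : Finset (Fin d) → ℝ} (H : Pf U l f) :
    l * ∑ x ∈ univ.filter (fun x : Finset (Fin d) => x.card % 2 = 0), f x ^ 2 =
      l * ∑ x ∈ univ.filter (fun x : Finset (Fin d) => x.card % 2 = 1), f x ^ 2 := by
  rw [mul_sum, mul_sum, sum_congr rfl fun x _ => BASE_sq H x, sum_comm,
    sum_congr (s₁ := univ.filter (fun x : Finset (Fin d) => x.card % 2 = 1)) rfl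
      fun x _ => BASE_sq H x, sum_comm (s := univ.filter (fun x : Finset (Fin d) => x.card % 2 = 1))]
  refine sum_congr rfl fun i _ => ?_
  refine sum_bij' (fun x _ => BASE_fl i x) (fun x _ => BASE_fl i x) ?_ ?_ ?_ ?_ ?_
  · intro x hx
    rw [mem_filter] at hx ⊢
    have h2 := BASE_fl_par i (BASE_fl i x)
    rw [BASE_fl_fl] at h2
    exact ⟨mem_univ _, h2.1 hx.2⟩
  · intro x hx
    rw [mem_filter] at hx ⊢
    exact ⟨mem_univ _, (BASE_fl_par i x).2 hx.2⟩
  · intro x _
    exact BASE_fl_fl i x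
  · intro x _
    exact BASE_fl_fl i x
  · intro x _
    rw [BASE_fl_fl]
    ring

theorem BASE (hEQ1 : EQ1_stmt) : BASE_stmt := by
  intro d U l f H
  obtain ⟨hl, -, h1, -, -, -⟩ := hEQ1 d U l f H
  have hpar := BASE_par H
  have hS0 : 0 ≤ ∑ i ∈ univ.filter (fun i : Fin d => {i} ∈ U), (1 + pd i U f) ^ 2 :=
    sum_nonneg fun i _ => sq_nonneg _
  rcases hl.eq_or_lt with hl0 | hl0
  · rw [← hl0]
    simp only [ne_eq, OfNat.ofNat_ne_zero, not_false_eq_true, zero_pow, zero_mul, add_zero]
    exact hS0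
  have heq := mul_left_cancel₀ hl0.ne' hpar
  -- the even side
  have hev : 1 + u2 U f ≤
      ∑ x ∈ univ.filter (fun x : Finset (Fin d) => x.card % 2 = 0), f x ^ 2 := by
    have hd : Disjoint ({∅} : Finset (Finset (Fin d))) (U.filter fun x => x.card = 2) := by
      rw [disjoint_singleton_left, mem_filter]
      rintro ⟨_, h⟩
      simp at h
    have hu : 1 + u2 U f = ∑ x ∈ ({∅} : Finset (Finset (Fin d))) ∪ (U.filter fun x => x.card = 2), f x ^ 2 := by
      rw [sum_union hd, sum_singleton, H.one, one_pow]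
      rfl
    rw [hu]
    refine sum_le_sum_of_subset_of_nonneg ?_ fun _ _ _ => sq_nonneg _
    intro x hx
    rw [mem_union, mem_singleton, mem_filter] at hx
    rw [mem_filter]
    refine ⟨mem_univ _, ?_⟩
    rcases hx with hx | hx
    · rw [hx]
      simp
    · rw [hx.2]
  -- the odd side
  have hod : ∑ x ∈ univ.filter (fun x : Finset (Fin d) => x.card % 2 = 1), f x ^ 2 ≤
      ∑ x ∈ U.filter (fun x => x.card = 1), f x ^ 2 + N (hi U) f := by
    have hd : Disjoint (U.filter fun x => x.card = 1) (hi U) := by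
      rw [disjoint_left]
      intro x hx hx'
      rw [mem_filter] at hx
      unfold hi at hx'
      rw [mem_filter] at hx'
      omega
    unfold N
    rw [← sum_union hd]
    rw [← sum_filter_add_sum_filter_not (univ.filter (fun x : Finset (Fin d) => x.card % 2 = 1))
      (fun x => x ∈ U)]
    have h0 : ∑ x ∈ (univ.filter (fun x : Finset (Fin d) => x.card % 2 = 1)).filter
        (fun x => ¬ x ∈ U), f x ^ 2 = 0 := by
      refine sum_eq_zero fun x hx => ?_
      rw [H.out x (mem_filter.1 hx).2]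
      ring
    rw [h0, add_zero]
    refine sum_le_sum_of_subset_of_nonneg ?_ fun _ _ _ => sq_nonneg _
    intro x hx
    rw [mem_filter, mem_filter] at hx
    unfold hi
    rw [mem_union, mem_filter, mem_filter]
    rcases Nat.lt_or_ge x.card 3 with h3 | h3
    · left
      refine ⟨hx.2, ?_⟩
      have := hx.1.2
      omega
    · right
      exact ⟨hx.2, h3⟩
  -- the singletons
  have hsg : ∑ x ∈ U.filter (fun x => x.card = 1), f x ^ 2 =
      ∑ i ∈ univ.filter (fun i : Fin d => {i} ∈ U), f {i} ^ 2 := by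
    symm
    refine sum_bij (fun i _ => {i}) ?_ ?_ ?_ ?_
    · intro i hi
      rw [mem_filter] at hi ⊢
      exact ⟨hi.2, card_singleton i⟩
    · intro i _ j _ hij
      exact singleton_injective hij
    · intro x hx
      rw [mem_filter] at hx
      obtain ⟨i, hi⟩ := card_eq_one.1 hx.2
      exact ⟨i, mem_filter.2 ⟨mem_univ _, hi ▸ hx.1⟩, hi.symm⟩
    · intro i _
      rfl
  have hfin : l ^ 2 * ∑ i ∈ univ.filter (fun i : Fin d => {i} ∈ U), f {i} ^ 2 =
      ∑ i ∈ univ.filter (fun i : Fin d => {i} ∈ U), (1 + pd i U f) ^ 2 := by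
    rw [mul_sum]
    refine sum_congr rfl fun i hi => ?_
    rw [← h1 i (mem_filter.1 hi).2]
    ring
  rw [← hfin, ← hsg, ← mul_add]
  refine mul_le_mul_of_nonneg_left ?_ (sq_nonneg l)
  exact hev.trans (heq.le.trans hod)

end Pool.Agent.helper9.HX
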